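import Pool.Agent.Lib_MP_bc75e5_pf.Defs

/-!
# MP_bc75e5_nt : admissible solutions of `x^4 + y^4 = c z^4` and the odd prime factors of `c`

If `P = p^k` is the exact power of an odd prime `p` dividing the modulus (`c`, or `N = c z^4` for
equal `z`), then `t = x / y` satisfies `t^4 = -1` modulo `P`, so two solutions satisfy `t' = t`,
`-t`, `1/t` or `-1/t` modulo `P`, that is `P` divides one of
`x y' - x' y`, `x y' + x' y`, `x x' - y y'`, `x x' + y y'`. This labels every odd prime factor by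
an element of the four group, labels compose, and constant labels are excluded by size.
-/

set_option autoImplicit false

namespace Pool.Agent.QuarticPF

/-- sign of a label -/
private def sg (a : Bool) : ℤ := if a then -1 else 1

private lemma sg_sq (a : Bool) : sg a ^ 2 = 1 := by cases a <;> simp [sg]

private lemma sg_xor (a a' : Bool) : sg (xor a a') = sg a * sg a' := by
  cases a <;> cases a' <;> simp [sg]

/-- the four forms -/
private def B (s : Bool × Bool) (x y x' y' : ℤ) : ℤ :=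
  if s.2 then x * x' - sg s.1 * y * y' else x * y' - sg s.1 * x' * y

private lemma prod_B (x y x' y' : ℤ) :
    B (false, false) x y x' y' * (B (true, false) x y x' y' *
      (B (false, true) x y x' y' * B (true, true) x y x' y')) =
    x' ^ 2 * y' ^ 2 * (x ^ 4 + y ^ 4) - x ^ 2 * y ^ 2 * (x' ^ 4 + y' ^ 4) := by
  simp only [B, sg]
  simp
  ring

/-- existence of a label -/
private lemma label_exists (p : ℤ) (k : ℕ) (hp : Prime p) (h2 : ¬ p ∣ 2) (hk : k ≠ 0)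
    (x y x' y' : ℤ) (hx : ¬ p ∣ x) (hy : ¬ p ∣ y) (hx' : ¬ p ∣ x') (hy' : ¬ p ∣ y')
    (h : p ^ k ∣ x ^ 4 + y ^ 4) (h' : p ^ k ∣ x' ^ 4 + y' ^ 4) :
    ∃ s : Bool × Bool, p ^ k ∣ B s x y x' y' := by
  have hpk : p ∣ p ^ k := dvd_pow_self p hk
  have hprod : p ^ k ∣ B (false, false) x y x' y' * (B (true, false) x y x' y' *
      (B (false, true) x y x' y' * B (true, true) x y x' y')) := by
    rw [prod_B]
    exact dvd_sub (Dvd.dvd.mul_left h _) (Dvd.dvd.mul_left h' _)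
  have h44 : ¬ p ∣ x' ^ 4 - y' ^ 4 := by
    intro hd
    have h1 : p ∣ 2 * x' ^ 4 := by
      have := dvd_add hd (hpk.trans h')
      have he : x' ^ 4 - y' ^ 4 + (x' ^ 4 + y' ^ 4) = 2 * x' ^ 4 := by ring
      rwa [he] at this
    rcases hp.dvd_or_dvd h1 with h1 | h1
    · exact h2 h1
    · exact hx' (hp.dvd_of_dvd_pow h1)
  have hA : ¬ p ∣ y * (x' ^ 2 - y' ^ 2) := by
    intro hd
    rcases hp.dvd_or_dvd hd with h1 | h1
    · exact hy h1
    · apply h44
      have := Dvd.dvd.mul_right h1 (x' ^ 2 + y' ^ 2)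
      have he : (x' ^ 2 - y' ^ 2) * (x' ^ 2 + y' ^ 2) = x' ^ 4 - y' ^ 4 := by ring
      rwa [he] at this
  have hB : ¬ p ∣ y * (x' ^ 2 + y' ^ 2) := by
    intro hd
    rcases hp.dvd_or_dvd hd with h1 | h1
    · exact hy h1
    · apply h44
      have := Dvd.dvd.mul_right h1 (x' ^ 2 - y' ^ 2)
      have he : (x' ^ 2 + y' ^ 2) * (x' ^ 2 - y' ^ 2) = x' ^ 4 - y' ^ 4 := by ring
      rwa [he] at this
  -- the six pairs
  have p1 : p ∣ B (false, false) x y x' y' → ¬ p ∣ B (true, false) x y x' y' := by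
    intro a b
    have := dvd_add a b
    have he : B (false, false) x y x' y' + B (true, false) x y x' y' = 2 * (x * y') := by
      simp [B, sg]; ring
    rw [he] at this
    rcases hp.dvd_or_dvd this with h1 | h1
    · exact h2 h1
    · rcases hp.dvd_or_dvd h1 with h1 | h1
      · exact hx h1
      · exact hy' h1
  have p2 : p ∣ B (false, true) x y x' y' → ¬ p ∣ B (true, true) x y x' y' := by
    intro a b
    have := dvd_add a b
    have he : B (false, true) x y x' y' + B (true, true) x y x' y' = 2 * (x * x') := by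
      simp [B, sg]; ring
    rw [he] at this
    rcases hp.dvd_or_dvd this with h1 | h1
    · exact h2 h1
    · rcases hp.dvd_or_dvd h1 with h1 | h1
      · exact hx h1
      · exact hx' h1
  have p3 : p ∣ B (false, false) x y x' y' → ¬ p ∣ B (false, true) x y x' y' := by
    intro a b
    apply hA
    have := dvd_sub (Dvd.dvd.mul_left b y') (Dvd.dvd.mul_left a x')
    have he : y' * B (false, true) x y x' y' - x' * B (false, false) x y x' y' =
        y * (x' ^ 2 - y' ^ 2) := by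
      simp [B, sg]; ring
    rwa [he] at this
  have p4 : p ∣ B (false, false) x y x' y' → ¬ p ∣ B (true, true) x y x' y' := by
    intro a b
    apply hB
    have := dvd_sub (Dvd.dvd.mul_left b y') (Dvd.dvd.mul_left a x')
    have he : y' * B (true, true) x y x' y' - x' * B (false, false) x y x' y' =
        y * (x' ^ 2 + y' ^ 2) := by
      simp [B, sg]; ring
    rwa [he] at this
  have p5 : p ∣ B (true, false) x y x' y' → ¬ p ∣ B (false, true) x y x' y' := by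
    intro a b
    apply hB
    have := dvd_sub (Dvd.dvd.mul_left a x') (Dvd.dvd.mul_left b y')
    have he : x' * B (true, false) x y x' y' - y' * B (false, true) x y x' y' =
        y * (x' ^ 2 + y' ^ 2) := by
      simp [B, sg]; ring
    rwa [he] at this
  have p6 : p ∣ B (true, false) x y x' y' → ¬ p ∣ B (true, true) x y x' y' := by
    intro a b
    apply hA
    have := dvd_sub (Dvd.dvd.mul_left a x') (Dvd.dvd.mul_left b y')
    have he : x' * B (true, false) x y x' y' - y' * B (true, true) x y x' y' =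
        y * (x' ^ 2 - y' ^ 2) := by
      simp [B, sg]; ring
    rwa [he] at this
  have cop : ∀ b : ℤ, ¬ p ∣ b → IsCoprime (p ^ k) b := fun b hb =>
    IsCoprime.pow_left (hp.coprime_iff_not_dvd.2 hb)
  by_cases h0 : p ∣ B (false, false) x y x' y'
  · refine ⟨(false, false), ?_⟩
    have c1 := cop _ (p1 h0)
    have c2 := cop _ (p3 h0)
    have c3 := cop _ (p4 h0)
    exact (c1.mul_right (c2.mul_right c3)).dvd_of_dvd_mul_right hprod
  · have hprod' := (cop _ h0).dvd_of_dvd_mul_left hprod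
    by_cases h5 : p ∣ B (true, false) x y x' y'
    · refine ⟨(true, false), ?_⟩
      have c2 := cop _ (p5 h5)
      have c3 := cop _ (p6 h5)
      exact (c2.mul_right c3).dvd_of_dvd_mul_right hprod'
    · have hprod'' := (cop _ h5).dvd_of_dvd_mul_left hprod'
      by_cases h7 : p ∣ B (false, true) x y x' y'
      · refine ⟨(false, true), ?_⟩
        exact (cop _ (p2 h7)).dvd_of_dvd_mul_right hprod''
      · exact ⟨(true, true), (cop _ h7).dvd_of_dvd_mul_left hprod''⟩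

/-- labels compose -/
private lemma label_comp (P x0 y0 x y x' y' : ℤ) (hc : IsCoprime P x0) (s s' : Bool × Bool)
    (h : P ∣ B s x0 y0 x y) (h' : P ∣ B s' x0 y0 x' y') :
    P ∣ B (xor s.1 s'.1, xor s.2 s'.2) x y x' y' := by
  obtain ⟨a, b⟩ := s
  obtain ⟨a', b'⟩ := s'
  apply hc.dvd_of_dvd_mul_left
  have e1 := sg_sq a
  have e2 := sg_sq a'
  cases b <;> cases b' <;> simp only [B, sg_xor, Bool.xor_false, Bool.xor_true, Bool.not_true,
    Bool.not_false, Bool.false_eq_true, if_true, if_false] at h h' ⊢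
  · have := dvd_sub (Dvd.dvd.mul_left h' x) (Dvd.dvd.mul_left h (sg a * sg a' * x'))
    have he : x * (x0 * y' - sg a' * x' * y0) - sg a * sg a' * x' * (x0 * y - sg a * x * y0) =
        x0 * (x * y' - sg a * sg a' * x' * y) := by
      linear_combination (sg a' * x' * x * y0) * e1
    rwa [he] at this
  · have := dvd_sub (Dvd.dvd.mul_left h' x) (Dvd.dvd.mul_left h (sg a * sg a' * y'))
    have he : x * (x0 * x' - sg a' * y0 * y') - sg a * sg a' * y' * (x0 * y - sg a * x * y0) =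
        x0 * (x * x' - sg a * sg a' * y * y') := by
      linear_combination (sg a' * y' * x * y0) * e1
    rwa [he] at this
  · have := dvd_sub (Dvd.dvd.mul_left h x') (Dvd.dvd.mul_left h' (sg a * sg a' * y))
    have he : x' * (x0 * x - sg a * y0 * y) - sg a * sg a' * y * (x0 * y' - sg a' * x' * y0) =
        x0 * (x * x' - sg a * sg a' * y * y') := by
      linear_combination (sg a * y * x' * y0) * e2
    rwa [he] at this
  · have := dvd_sub (Dvd.dvd.mul_left h y') (Dvd.dvd.mul_left h' (sg a * sg a' * y))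
    have he : y' * (x0 * x - sg a * y0 * y) - sg a * sg a' * y * (x0 * x' - sg a' * y0 * y') =
        x0 * (x * y' - sg a * sg a' * x' * y) := by
      linear_combination (sg a * y * y0 * y') * e2
    rwa [he] at this

/-- local to global divisibility -/
private lemma total (m : ℕ) (hm0 : m ≠ 0) (hm : ¬ 4 ∣ m) (b : ℤ) (h2 : 2 ∣ m → (2 : ℤ) ∣ b)
    (h : ∀ p ∈ m.primeFactors.erase 2, ((p : ℤ) ^ (m.factorization p)) ∣ b) : (m : ℤ) ∣ b := by
  rw [Int.natCast_dvd, Nat.dvd_iff_prime_pow_dvd_dvd]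
  intro p k hp hpk
  rcases Nat.eq_zero_or_pos k with rfl | hk
  · simp
  have hpm : p ∣ m := (dvd_pow_self p hk.ne').trans hpk
  by_cases hp2 : p = 2
  · subst hp2
    have hk1 : k = 1 := by
      by_contra hne
      apply hm
      have : 2 ^ 2 ∣ 2 ^ k := pow_dvd_pow 2 (by omega)
      exact (by simpa using this.trans hpk : 4 ∣ m)
    subst hk1
    rw [pow_one, ← Int.natCast_dvd]
    exact_mod_cast h2 hpm
  · have hmem : p ∈ m.primeFactors.erase 2 :=
      Finset.mem_erase.2 ⟨hp2, Nat.mem_primeFactors.2 ⟨hp, hpm, hm0⟩⟩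
    have h3 := h p hmem
    have h4 : p ^ k ∣ p ^ (m.factorization p) :=
      pow_dvd_pow p ((hp.pow_dvd_iff_le_factorization hm0).1 hpk)
    apply h4.trans
    rw [← Int.natCast_dvd]
    exact_mod_cast h3

private lemma not_four (m x y : ℕ) (hc : Nat.Coprime x y) (h : m ∣ x ^ 4 + y ^ 4) : ¬ 4 ∣ m := by
  intro h4
  have h5 : (x ^ 4 + y ^ 4) % 4 = 0 := Nat.mod_eq_zero_of_dvd (h4.trans h)
  have hx : x % 4 = 0 ∨ x % 4 = 1 ∨ x % 4 = 2 ∨ x % 4 = 3 := by omega
  have hy : y % 4 = 0 ∨ y % 4 = 1 ∨ y % 4 = 2 ∨ y % 4 = 3 := by omega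
  have key : x % 2 = 0 ∧ y % 2 = 0 := by
    rcases hx with hx | hx | hx | hx <;> rcases hy with hy | hy | hy | hy <;>
      simp [Nat.add_mod, Nat.pow_mod, hx, hy] at h5 <;> omega
  have h2x : 2 ∣ x := Nat.dvd_of_mod_eq_zero key.1
  have h2y : 2 ∣ y := Nat.dvd_of_mod_eq_zero key.2
  have := Nat.dvd_gcd h2x h2y
  rw [Nat.Coprime.gcd_eq_one hc] at this
  omega

private lemma odd_of_even (m x y : ℕ) (hc : Nat.Coprime x y) (h : m ∣ x ^ 4 + y ^ 4)
    (h2 : 2 ∣ m) : x % 2 = 1 ∧ y % 2 = 1 := by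
  have h5 : (x ^ 4 + y ^ 4) % 2 = 0 := Nat.mod_eq_zero_of_dvd (h2.trans h)
  have hx : x % 2 = 0 ∨ x % 2 = 1 := by omega
  have hy : y % 2 = 0 ∨ y % 2 = 1 := by omega
  rcases hx with hx | hx <;> rcases hy with hy | hy
  · exfalso
    have := Nat.dvd_gcd (Nat.dvd_of_mod_eq_zero hx) (Nat.dvd_of_mod_eq_zero hy)
    rw [Nat.Coprime.gcd_eq_one hc] at this
    omega
  · simp [Nat.add_mod, Nat.pow_mod, hx, hy] at h5
  · simp [Nat.add_mod, Nat.pow_mod, hx, hy] at h5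
  · exact ⟨hx, hy⟩

private lemma even_B (x y x' y' : ℕ) (hx : x % 2 = 1) (hy : y % 2 = 1) (hx' : x' % 2 = 1)
    (hy' : y' % 2 = 1) (s : Bool × Bool) : (2 : ℤ) ∣ B s x y x' y' := by
  have o1 : Odd (x : ℤ) := by exact_mod_cast (Nat.odd_iff.2 hx)
  have o2 : Odd (y : ℤ) := by exact_mod_cast (Nat.odd_iff.2 hy)
  have o3 : Odd (x' : ℤ) := by exact_mod_cast (Nat.odd_iff.2 hx')
  have o4 : Odd (y' : ℤ) := by exact_mod_cast (Nat.odd_iff.2 hy')
  obtain ⟨a, b⟩ := s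
  rw [← even_iff_two_dvd]
  cases a <;> cases b <;> simp [B, sg]
  · exact (o1.mul o4).sub_odd (o3.mul o2)
  · exact (o1.mul o3).sub_odd (o2.mul o4)
  · exact (o1.mul o4).add_odd (o3.mul o2)
  · exact (o1.mul o3).add_odd (o2.mul o4)

private lemma not_dvd_left (p m x y : ℕ) (hp : p.Prime) (hpm : p ∣ m) (hc : Nat.Coprime x y)
    (h : m ∣ x ^ 4 + y ^ 4) : ¬ (p : ℤ) ∣ (x : ℤ) ∧ ¬ (p : ℤ) ∣ (y : ℤ) := by
  have h1 : p ∣ x ^ 4 + y ^ 4 := hpm.trans h
  constructor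
  · intro hd
    have hd' : p ∣ x := by exact_mod_cast hd
    have h2 : p ∣ y ^ 4 := (Nat.dvd_add_right (hd'.trans (dvd_pow_self x (by norm_num)))).1 h1
    have := Nat.dvd_gcd hd' (hp.dvd_of_dvd_pow h2)
    rw [Nat.Coprime.gcd_eq_one hc] at this
    exact hp.one_lt.ne' (Nat.dvd_one.1 this)
  · intro hd
    have hd' : p ∣ y := by exact_mod_cast hd
    have h2 : p ∣ x ^ 4 := (Nat.dvd_add_left (hd'.trans (dvd_pow_self y (by norm_num)))).1 h1
    have := Nat.dvd_gcd (hp.dvd_of_dvd_pow h2) hd'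
    rw [Nat.Coprime.gcd_eq_one hc] at this
    exact hp.one_lt.ne' (Nat.dvd_one.1 this)

/-- label for an odd prime of the modulus -/
private lemma label (m : ℕ) (hm0 : m ≠ 0) (p : ℕ) (hp : p ∈ m.primeFactors.erase 2)
    (x y x' y' : ℕ) (hc : Nat.Coprime x y) (hc' : Nat.Coprime x' y')
    (h : m ∣ x ^ 4 + y ^ 4) (h' : m ∣ x' ^ 4 + y' ^ 4) :
    ∃ s : Bool × Bool, ((p : ℤ) ^ (m.factorization p)) ∣ B s x y x' y' := by
  obtain ⟨hp2, hpm⟩ := Finset.mem_erase.1 hp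
  obtain ⟨hpp, hpd, -⟩ := Nat.mem_primeFactors.1 hpm
  have hk : m.factorization p ≠ 0 := (hpp.factorization_pos_of_dvd hm0 hpd).ne'
  have n1 := not_dvd_left p m x y hpp hpd hc h
  have n2 := not_dvd_left p m x' y' hpp hpd hc' h'
  have hd : p ^ (m.factorization p) ∣ m := Nat.ordProj_dvd m p
  apply label_exists (p : ℤ) _ (Nat.prime_iff_prime_int.1 hpp) _ hk x y x' y' n1.1 n1.2 n2.1 n2.2
  · exact_mod_cast hd.trans h
  · exact_mod_cast hd.trans h'
  · intro h2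
    have : p ∣ 2 := by exact_mod_cast h2
    exact hp2 ((Nat.prime_dvd_prime_iff_eq hpp Nat.prime_two).1 this)

/-! ### Size estimates -/

private lemma B_sq_le (s : Bool × Bool) (x y x' y' : ℤ) :
    B s x y x' y' ^ 2 ≤ (x ^ 2 + y ^ 2) * (x' ^ 2 + y' ^ 2) := by
  obtain ⟨a, b⟩ := s
  cases a <;> cases b <;> simp [B, sg]
  · nlinarith [sq_nonneg (x * x' + y * y')]
  · nlinarith [sq_nonneg (x * y' + x' * y)]
  · nlinarith [sq_nonneg (x * x' - y * y')]
  · nlinarith [sq_nonneg (x * y' - x' * y)]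

private lemma B_pos (s : Bool × Bool) (hs : s ≠ (false, false)) (x y x' y' : ℤ) (hy : 0 < y)
    (hxy : y < x) (hy' : 0 < y') (hxy' : y' < x') : 0 < B s x y x' y' := by
  obtain ⟨a, b⟩ := s
  have hx : 0 < x := hy.trans hxy
  have hx' : 0 < x' := hy'.trans hxy'
  cases a <;> cases b <;> simp [B, sg] at hs ⊢
  · nlinarith [mul_pos hy hy', mul_pos (sub_pos.2 hxy) hx', mul_pos hy (sub_pos.2 hxy')]
  · positivity
  · positivity

private lemma eq_of_cross (x y x' y' : ℕ) (hc : Nat.Coprime x y) (hc' : Nat.Coprime x' y')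
    (hx : 0 < x) (h : (x : ℤ) * y' - x' * y = 0) : x = x' ∧ y = y' := by
  have h1 : x * y' = x' * y := by
    have : (x : ℤ) * y' = x' * y := by linarith
    exact_mod_cast this
  have h2 : x ∣ x' := hc.dvd_of_dvd_mul_right (h1 ▸ dvd_mul_right x y')
  have h3 : x' ∣ x := hc'.dvd_of_dvd_mul_right (h1.symm ▸ dvd_mul_right x' y)
  have h4 : x = x' := Nat.dvd_antisymm h2 h3
  refine ⟨h4, ?_⟩
  rw [← h4] at h1
  exact (Nat.eq_of_mul_eq_mul_left hx h1).symm

/-- part (A): size of a single form -/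
private lemma B_small (c : ℕ) (s : Bool × Bool) (x y z x' y' z' : ℕ)
    (h : x ^ 4 + y ^ 4 = c * z ^ 4) (h' : x' ^ 4 + y' ^ 4 = c * z' ^ 4)
    (hz : 2 * z ^ 4 < c) (hz' : 2 * z' ^ 4 < c) : |B s x y x' y'| < (c : ℤ) := by
  have e : (x : ℤ) ^ 4 + y ^ 4 = c * z ^ 4 := by exact_mod_cast h
  have e' : (x' : ℤ) ^ 4 + y' ^ 4 = c * z' ^ 4 := by exact_mod_cast h'
  have hz1 : 2 * (z : ℤ) ^ 4 < c := by exact_mod_cast hz
  have hz1' : 2 * (z' : ℤ) ^ 4 < c := by exact_mod_cast hz'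
  have hc0 : (0 : ℤ) < c := lt_of_le_of_lt (by positivity) hz1
  by_contra hcon
  have hcon := not_lt.1 hcon
  have h4 : (c : ℤ) ^ 4 ≤ B s x y x' y' ^ 4 := by
    have := pow_le_pow_left₀ hc0.le hcon 4
    rwa [show |B s x y x' y'| ^ 4 = B s x y x' y' ^ 4 from Even.pow_abs (by decide) _] at this
  have hs := B_sq_le s x y x' y'
  have h5 : B s x y x' y' ^ 4 ≤ ((x : ℤ) ^ 2 + y ^ 2) ^ 2 * (x' ^ 2 + y' ^ 2) ^ 2 := by
    have := pow_le_pow_left₀ (sq_nonneg _) hs 2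
    calc B s x y x' y' ^ 4 = (B s x y x' y' ^ 2) ^ 2 := by ring
      _ ≤ _ := this
      _ = _ := by ring
  have h6 : ((x : ℤ) ^ 2 + y ^ 2) ^ 2 ≤ 2 * (c * z ^ 4) := by
    rw [← e]; nlinarith [sq_nonneg ((x : ℤ) ^ 2 - y ^ 2)]
  have h7 : ((x' : ℤ) ^ 2 + y' ^ 2) ^ 2 ≤ 2 * (c * z' ^ 4) := by
    rw [← e']; nlinarith [sq_nonneg ((x' : ℤ) ^ 2 - y' ^ 2)]
  have h8 : ((x : ℤ) ^ 2 + y ^ 2) ^ 2 * (x' ^ 2 + y' ^ 2) ^ 2 ≤
      (2 * (c * z ^ 4)) * (2 * (c * z' ^ 4)) :=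
    mul_le_mul h6 h7 (sq_nonneg _) (by positivity)
  have h9 : (2 * (z : ℤ) ^ 4) * (2 * z' ^ 4) < c * c :=
    mul_lt_mul'' hz1 hz1' (by positivity) (by positivity)
  have h10 : (2 * ((c : ℤ) * z ^ 4)) * (2 * (c * z' ^ 4)) < c ^ 4 := by
    have : (2 * ((c : ℤ) * z ^ 4)) * (2 * (c * z' ^ 4)) =
        c ^ 2 * ((2 * (z : ℤ) ^ 4) * (2 * z' ^ 4)) := by ring
    rw [this]
    have h11 : (c : ℤ) ^ 2 * ((2 * (z : ℤ) ^ 4) * (2 * z' ^ 4)) < c ^ 2 * (c * c) :=
      mul_lt_mul_of_pos_left h9 (by positivity)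
    calc _ < (c : ℤ) ^ 2 * (c * c) := h11
      _ = c ^ 4 := by ring
  linarith

/-- part (B): the product of the two forms with the same second label -/
private lemma prod_small (N : ℤ) (b : Bool) (x y x' y' : ℤ) (hy : 0 < y) (hxy : y < x)
    (hy' : 0 < y') (hxy' : y' < x') (h : x ^ 4 + y ^ 4 = N) (h' : x' ^ 4 + y' ^ 4 = N) :
    |B (false, b) x y x' y' * B (true, b) x y x' y'| < N := by
  have hx : 0 < x := hy.trans hxy
  have hx' : 0 < x' := hy'.trans hxy'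
  have hN : 0 < N := by rw [← h]; positivity
  have aux : ∀ u v : ℤ, 0 < u → 0 < v → u ^ 4 < N → v ^ 4 < N → u ^ 2 * v ^ 2 < N := by
    intro u v hu hv h1 h2
    by_contra hc
    have hc := not_lt.1 hc
    have h3 : N * N ≤ (u ^ 2 * v ^ 2) * (u ^ 2 * v ^ 2) := mul_le_mul hc hc hN.le (by positivity)
    have h4 : u ^ 4 * v ^ 4 < N * N := mul_lt_mul'' h1 h2 (by positivity) (by positivity)
    nlinarith
  have hx4 : x ^ 4 < N := by rw [← h]; linarith [pow_pos hy 4]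
  have hy4 : y ^ 4 < N := by rw [← h]; linarith [pow_pos hx 4]
  have hx4' : x' ^ 4 < N := by rw [← h']; linarith [pow_pos hy' 4]
  have hy4' : y' ^ 4 < N := by rw [← h']; linarith [pow_pos hx' 4]
  cases b
  · have he : B (false, false) x y x' y' * B (true, false) x y x' y' =
        x ^ 2 * y' ^ 2 - x' ^ 2 * y ^ 2 := by simp [B, sg]; ring
    rw [he, abs_lt]
    have h1 := aux x y' hx hy' hx4 hy4'
    have h2 := aux x' y hx' hy hx4' hy4
    constructor <;> nlinarith [mul_pos (pow_pos hx 2) (pow_pos hy' 2),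
      mul_pos (pow_pos hx' 2) (pow_pos hy 2)]
  · have he : B (false, true) x y x' y' * B (true, true) x y x' y' =
        x ^ 2 * x' ^ 2 - y ^ 2 * y' ^ 2 := by simp [B, sg]; ring
    rw [he, abs_lt]
    have h1 := aux x x' hx hx' hx4 hx4'
    have h2 := aux y y' hy hy' hy4 hy4'
    constructor <;> nlinarith [mul_pos (pow_pos hx 2) (pow_pos hx' 2),
      mul_pos (pow_pos hy 2) (pow_pos hy' 2)]

private lemma no_sqrt_three (K N : ℤ) (hN : N ≠ 0) : K ^ 2 ≠ 3 * N ^ 2 := by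
  intro h
  have hirr := Nat.Prime.irrational_sqrt Nat.prime_three
  apply hirr
  have hNr : (N : ℝ) ≠ 0 := by exact_mod_cast hN
  refine ⟨|(K : ℚ) / N|, ?_⟩
  have h3 : ((K : ℝ) / N) ^ 2 = 3 := by
    rw [div_pow, div_eq_iff (pow_ne_zero 2 hNr)]
    exact_mod_cast h
  push_cast
  rw [← Real.sqrt_sq_eq_abs, h3]

private lemma sqlt (N a : ℤ) (hN : 0 < N) (h2 : a ^ 2 < N ^ 2) : a < N :=
  lt_of_pow_lt_pow_left₀ 2 hN.le h2

private lemma uv_lt (N u v u' : ℤ) (hN : 0 < N) (hu' : 2 * u' ^ 2 < N)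
    (hv : v ^ 2 = N - 2 * u ^ 2) : u' * v < N := by
  apply sqlt N _ hN
  rw [mul_pow, hv, sq N]
  have h1 : u' ^ 2 * (N - 2 * u ^ 2) ≤ u' ^ 2 * N :=
    mul_le_mul_of_nonneg_left (by linarith [sq_nonneg u]) (sq_nonneg u')
  have h2 : u' ^ 2 * N < N * N := mul_lt_mul_of_pos_right (by linarith [sq_nonneg u']) hN
  exact lt_of_le_of_lt h1 h2

private lemma uw_lt (N u w u' : ℤ) (hN : 0 < N) (hu : 2 * u ^ 2 < N) (hu' : 2 * u' ^ 2 < N)
    (hw : w ^ 2 = N + 2 * u ^ 2) : u' * w < N := by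
  apply sqlt N _ hN
  rw [mul_pow, hw, sq N]
  have h1 : 2 * u' ^ 2 * (N + 2 * u ^ 2) < N * (N + 2 * u ^ 2) :=
    mul_lt_mul_of_pos_right hu' (by positivity)
  have h2 : N * (N + 2 * u ^ 2) < N * (N + N) := mul_lt_mul_of_pos_left (by linarith) hN
  linarith

private lemma uv_add (N u v u' v' : ℤ) (hN : 0 < N) (hv : v ^ 2 = N - 2 * u ^ 2)
    (hv' : v' ^ 2 = N - 2 * u' ^ 2) : u' * v + u * v' < N := by
  apply sqlt N _ hN
  have hid : (2 * u' ^ 2 + v' ^ 2) * (v ^ 2 + 2 * u ^ 2) - 2 * (u' * v + u * v') ^ 2 =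
      (v * v' - 2 * u * u') ^ 2 := by ring
  rw [hv, hv'] at hid
  have h1 := sq_nonneg (v * v' - 2 * u * u')
  have h2 : 0 < N ^ 2 := by positivity
  have h3 : (2 * u' ^ 2 + (N - 2 * u' ^ 2)) * ((N - 2 * u ^ 2) + 2 * u ^ 2) = N ^ 2 := by ring
  rw [h3] at hid
  linarith

private lemma uw_add (N u w u' w' : ℤ) (hN : 0 < N) (hw : w ^ 2 = N + 2 * u ^ 2)
    (hw' : w' ^ 2 = N + 2 * u' ^ 2) (h0 : 0 < u' * w) (h0' : 0 < u * w') (h1 : u' * w < N)
    (h1' : u * w' < N) : ¬ N ∣ u' * w + u * w' := by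
  rintro ⟨k, hk⟩
  have hk0 : 0 < k := by
    by_contra hc
    have h5 := mul_le_mul_of_nonneg_left (not_lt.1 hc) hN.le
    linarith
  have hk2 : k < 2 := by
    by_contra hc
    have h5 := mul_le_mul_of_nonneg_left (not_lt.1 hc) hN.le
    linarith
  have hk1 : k = 1 := by omega
  rw [hk1, mul_one] at hk
  have hid : (w * w' + 2 * u * u') ^ 2 - 2 * (u' * w + u * w') ^ 2 =
      (w ^ 2 - 2 * u ^ 2) * (w' ^ 2 - 2 * u' ^ 2) := by ring
  rw [hw, hw', hk] at hid
  exact no_sqrt_three (w * w' + 2 * u * u') N hN.ne' (by linear_combination hid)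

/-- the key exclusion: two different labels never absorb the whole of `N` -/
private lemma pair_excluded (N : ℤ) (x y x' y' : ℤ) (hy : 0 < y) (hxy : y < x)
    (hy' : 0 < y') (hxy' : y' < x') (h : x ^ 4 + y ^ 4 = N) (h' : x' ^ 4 + y' ^ 4 = N)
    (hne : B (false, false) x y x' y' ≠ 0) (s t : Bool × Bool) (hst : s ≠ t) :
    ¬ N ∣ B s x y x' y' * B t x y x' y' := by
  have hx : 0 < x := hy.trans hxy
  have hx' : 0 < x' := hy'.trans hxy'
  have hN : 0 < N := by rw [← h]; positivity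
  have hB : ∀ s : Bool × Bool, B s x y x' y' ≠ 0 := by
    intro s
    by_cases hs : s = (false, false)
    · rw [hs]; exact hne
    · exact (B_pos s hs x y x' y' hy hxy hy' hxy').ne'
  have small : ∀ s t : Bool × Bool, |B s x y x' y' * B t x y x' y'| < N →
      ¬ N ∣ B s x y x' y' * B t x y x' y' := by
    intro s t hlt hd
    exact mul_ne_zero (hB s) (hB t) (Int.eq_zero_of_abs_lt_dvd hd hlt)
  have hv0 : 0 < x ^ 2 - y ^ 2 := by nlinarith
  have hv0' : 0 < x' ^ 2 - y' ^ 2 := by nlinarith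
  have hu : 2 * (x * y) ^ 2 < N := by
    have := pow_pos hv0 2
    have he : (x ^ 2 - y ^ 2) ^ 2 = x ^ 4 + y ^ 4 - 2 * (x * y) ^ 2 := by ring
    rw [he, h] at this; linarith
  have hu' : 2 * (x' * y') ^ 2 < N := by
    have := pow_pos hv0' 2
    have he : (x' ^ 2 - y' ^ 2) ^ 2 = x' ^ 4 + y' ^ 4 - 2 * (x' * y') ^ 2 := by ring
    rw [he, h'] at this; linarith
  have hu0 : 0 < x * y := mul_pos hx hy
  have hu0' : 0 < x' * y' := mul_pos hx' hy'
  have hw0 : 0 < x ^ 2 + y ^ 2 := by positivity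
  have hw0' : 0 < x' ^ 2 + y' ^ 2 := by positivity
  have hv : (x ^ 2 - y ^ 2) ^ 2 = N - 2 * (x * y) ^ 2 := by rw [← h]; ring
  have hv' : (x' ^ 2 - y' ^ 2) ^ 2 = N - 2 * (x' * y') ^ 2 := by rw [← h']; ring
  have hw : (x ^ 2 + y ^ 2) ^ 2 = N + 2 * (x * y) ^ 2 := by rw [← h]; ring
  have hw' : (x' ^ 2 + y' ^ 2) ^ 2 = N + 2 * (x' * y') ^ 2 := by rw [← h']; ring
  have uv1 := uv_lt N (x * y) (x ^ 2 - y ^ 2) (x' * y') hN hu' hv
  have uv2 := uv_lt N (x' * y') (x' ^ 2 - y' ^ 2) (x * y) hN hu hv'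
  have uw1 := uw_lt N (x * y) (x ^ 2 + y ^ 2) (x' * y') hN hu hu' hw
  have uw2 := uw_lt N (x' * y') (x' ^ 2 + y' ^ 2) (x * y) hN hu' hu hw'
  have m1 := mul_pos hu0' hv0
  have m2 := mul_pos hu0 hv0'
  have m3 := mul_pos hu0' hw0
  have m4 := mul_pos hu0 hw0'
  have ff_tf := prod_small N false x y x' y' hy hxy hy' hxy' h h'
  have ft_tt := prod_small N true x y x' y' hy hxy hy' hxy' h h'
  have ff_tt : |B (false, false) x y x' y' * B (true, true) x y x' y'| < N := by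
    have e : B (false, false) x y x' y' * B (true, true) x y x' y' =
        x' * y' * (x ^ 2 - y ^ 2) - x * y * (x' ^ 2 - y' ^ 2) := by simp [B, sg]; ring
    rw [e, abs_lt]
    constructor <;> linarith
  have ff_ft : |B (false, false) x y x' y' * B (false, true) x y x' y'| < N := by
    have e : B (false, false) x y x' y' * B (false, true) x y x' y' =
        x' * y' * (x ^ 2 + y ^ 2) - x * y * (x' ^ 2 + y' ^ 2) := by simp [B, sg]; ring
    rw [e, abs_lt]
    constructor <;> linarith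
  have tf_ft : |B (true, false) x y x' y' * B (false, true) x y x' y'| < N := by
    have e : B (true, false) x y x' y' * B (false, true) x y x' y' =
        x' * y' * (x ^ 2 - y ^ 2) + x * y * (x' ^ 2 - y' ^ 2) := by simp [B, sg]; ring
    rw [e, abs_of_pos (add_pos m1 m2)]
    exact uv_add N (x * y) (x ^ 2 - y ^ 2) (x' * y') (x' ^ 2 - y' ^ 2) hN hv hv'
  have tf_tt : ¬ N ∣ B (true, false) x y x' y' * B (true, true) x y x' y' := by
    have e : B (true, false) x y x' y' * B (true, true) x y x' y' =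
        x' * y' * (x ^ 2 + y ^ 2) + x * y * (x' ^ 2 + y' ^ 2) := by simp [B, sg]; ring
    rw [e]
    exact uw_add N (x * y) (x ^ 2 + y ^ 2) (x' * y') (x' ^ 2 + y' ^ 2) hN hw hw' m3 m4 uw1 uw2
  have flip : ∀ s t : Bool × Bool, ¬ N ∣ B s x y x' y' * B t x y x' y' →
      ¬ N ∣ B t x y x' y' * B s x y x' y' := by
    intro s t h1
    rwa [mul_comm]
  rcases s with ⟨_ | _, _ | _⟩ <;> rcases t with ⟨_ | _, _ | _⟩
  · exact absurd rfl hst
  · exact small _ _ ff_ft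
  · exact small _ _ ff_tf
  · exact small _ _ ff_tt
  · exact flip _ _ (small _ _ ff_ft)
  · exact absurd rfl hst
  · exact flip _ _ (small _ _ tf_ft)
  · exact small _ _ ft_tt
  · exact flip _ _ (small _ _ ff_tf)
  · exact small _ _ tf_ft
  · exact absurd rfl hst
  · exact tf_tt
  · exact flip _ _ (small _ _ ff_tt)
  · exact flip _ _ (small _ _ ft_tt)
  · exact flip _ _ tf_tt
  · exact absurd rfl hst

/-! ### Counting -/

private lemma bool_swap (a b c d : Bool) (h : xor a b = xor c d) : xor a c = xor b d := by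
  revert a b c d; decide

theorem partA (c : ℕ) (S : Finset (ℕ × ℕ × ℕ))
    (hS : ∀ t ∈ S, Admissible c t.1 t.2.1 t.2.2 ∧ 2 * t.2.2 ^ 4 < c) :
    4 * S.card ≤ 4 ^ oddOmega c := by
  classical
  rcases S.eq_empty_or_nonempty with rfl | ⟨t0, ht0⟩
  · simp
  obtain ⟨⟨hy0, hxy0, hz0, hc0, he0⟩, hs0⟩ := hS t0 ht0
  have hm0 : c ≠ 0 := by omega
  have hd0 : c ∣ t0.1 ^ 4 + t0.2.1 ^ 4 := he0 ▸ dvd_mul_right c _
  have hlab : ∀ (t : S) (p : (c.primeFactors.erase 2 : Finset ℕ)), ∃ s : Bool × Bool,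
      ((p : ℕ) : ℤ) ^ (c.factorization p) ∣ B s t0.1 t0.2.1 t.1.1 t.1.2.1 := by
    rintro ⟨t, ht⟩ ⟨p, hp⟩
    obtain ⟨⟨hy, hxy, hz, hc, he⟩, hs⟩ := hS t ht
    exact label c hm0 p hp _ _ _ _ hc0 hc hd0 (he ▸ dvd_mul_right c _)
  choose ℓ hℓ using hlab
  let Φ : S × (Bool × Bool) → ((c.primeFactors.erase 2 : Finset ℕ) → Bool × Bool) :=
    fun q p => (xor (ℓ q.1 p).1 q.2.1, xor (ℓ q.1 p).2 q.2.2)
  have hΦ : Function.Injective Φ := by
    rintro ⟨⟨t, ht⟩, v⟩ ⟨⟨t', ht'⟩, v'⟩ hq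
    obtain ⟨⟨hy, hxy, hz, hc, he⟩, hs⟩ := hS t ht
    obtain ⟨⟨hy', hxy', hz', hc', he'⟩, hs'⟩ := hS t' ht'
    have hd : c ∣ t.1 ^ 4 + t.2.1 ^ 4 := he ▸ dvd_mul_right c _
    have hd' : c ∣ t'.1 ^ 4 + t'.2.1 ^ 4 := he' ▸ dvd_mul_right c _
    have hdvd : (c : ℤ) ∣ B (xor v.1 v'.1, xor v.2 v'.2) t.1 t.2.1 t'.1 t'.2.1 := by
      apply total c hm0 (not_four c _ _ hc hd)
      · intro h2
        have o1 := odd_of_even c _ _ hc hd h2
        have o2 := odd_of_even c _ _ hc' hd' h2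
        exact even_B _ _ _ _ o1.1 o1.2 o2.1 o2.2 _
      · intro p hp
        have hq' := congrFun hq ⟨p, hp⟩
        simp only [Φ, Prod.mk.injEq] at hq'
        have h1 := bool_swap _ _ _ _ hq'.1
        have h2 := bool_swap _ _ _ _ hq'.2
        rw [← h1, ← h2]
        obtain ⟨hp2, hpm⟩ := Finset.mem_erase.1 hp
        obtain ⟨hpp, hpd, -⟩ := Nat.mem_primeFactors.1 hpm
        have hcop : IsCoprime ((p : ℤ) ^ (c.factorization p)) (t0.1 : ℤ) :=
          IsCoprime.pow_left ((Nat.prime_iff_prime_int.1 hpp).coprime_iff_not_dvd.2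
            (not_dvd_left p c _ _ hpp hpd hc0 hd0).1)
        exact label_comp _ _ _ _ _ _ _ hcop _ _ (hℓ ⟨t, ht⟩ ⟨p, hp⟩) (hℓ ⟨t', ht'⟩ ⟨p, hp⟩)
    have hsm := B_small c (xor v.1 v'.1, xor v.2 v'.2) _ _ _ _ _ _ he he' hs hs'
    have hzero := Int.eq_zero_of_abs_lt_dvd hdvd hsm
    have hv : ((xor v.1 v'.1, xor v.2 v'.2) : Bool × Bool) = (false, false) := by
      by_contra hne
      exact (B_pos _ hne _ _ _ _ (by exact_mod_cast hy) (by exact_mod_cast hxy)
        (by exact_mod_cast hy') (by exact_mod_cast hxy')).ne' hzero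
    rw [hv] at hzero
    have hzero' : (t.1 : ℤ) * t'.2.1 - t'.1 * t.2.1 = 0 := by simpa [B, sg] using hzero
    obtain ⟨e1, e2⟩ := eq_of_cross _ _ _ _ hc hc' (by omega) hzero'
    have e3 : t.2.2 = t'.2.2 := by
      rw [← e1, ← e2, he] at he'
      exact Nat.pow_left_injective (by norm_num) (Nat.eq_of_mul_eq_mul_left (by omega) he')
    have ev : v = v' := by
      rw [Prod.mk.injEq] at hv
      obtain ⟨v1, v2⟩ := v
      obtain ⟨v1', v2'⟩ := v'
      simpa using hv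
    have et : t = t' := Prod.ext e1 (Prod.ext e2 e3)
    subst et
    subst ev
    rfl
  have hcard := Fintype.card_le_of_injective Φ hΦ
  simp only [Fintype.card_prod, Fintype.card_coe, Fintype.card_bool, Fintype.card_fun] at hcard
  rw [oddOmega]
  norm_num at hcard
  omega

private lemma primeFactors_mod (c z : ℕ) (hc : c ≠ 0) (hz : z ≠ 0) :
    (c * z ^ 4).primeFactors = (c * z).primeFactors := by
  rw [Nat.primeFactors_mul hc (pow_ne_zero 4 hz), Nat.primeFactors_mul hc hz,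
    Nat.primeFactors_pow z (by norm_num)]

theorem partB1 (c z : ℕ) (S : Finset (ℕ × ℕ)) (hS : ∀ t ∈ S, Admissible c t.1 t.2 z) :
    2 * S.card ≤ 2 ^ oddOmega (c * z) := by
  classical
  rcases S.eq_empty_or_nonempty with rfl | ⟨t0, ht0⟩
  · simp
  obtain ⟨hy0, hxy0, hz0, hc0, he0⟩ := hS t0 ht0
  have hcz : c ≠ 0 := by
    rintro rfl
    rw [zero_mul] at he0
    have := pow_pos hy0 4
    omega
  rw [oddOmega, ← primeFactors_mod c z hcz hz0.ne']
  set N : ℕ := c * z ^ 4 with hNdef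
  have hm0 : N ≠ 0 := mul_ne_zero hcz (pow_ne_zero 4 hz0.ne')
  have hlab : ∀ (t : S) (p : (N.primeFactors.erase 2 : Finset ℕ)), ∃ s : Bool × Bool,
      ((p : ℕ) : ℤ) ^ (N.factorization p) ∣ B s t0.1 t0.2 t.1.1 t.1.2 := by
    rintro ⟨t, ht⟩ ⟨p, hp⟩
    obtain ⟨hy, hxy, hz, hc, he⟩ := hS t ht
    exact label N hm0 p hp _ _ _ _ hc0 hc (he0 ▸ dvd_refl _) (he ▸ dvd_refl _)
  choose ℓ hℓ using hlab
  let Φ : S × Bool → ((N.primeFactors.erase 2 : Finset ℕ) → Bool) :=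
    fun q p => xor (ℓ q.1 p).2 q.2
  have hΦ : Function.Injective Φ := by
    rintro ⟨⟨t, ht⟩, v⟩ ⟨⟨t', ht'⟩, v'⟩ hq
    obtain ⟨hy, hxy, hz, hc, he⟩ := hS t ht
    obtain ⟨hy', hxy', hz', hc', he'⟩ := hS t' ht'
    have hd : N ∣ t.1 ^ 4 + t.2 ^ 4 := he ▸ dvd_refl _
    have hd' : N ∣ t'.1 ^ 4 + t'.2 ^ 4 := he' ▸ dvd_refl _
    have hdvd : (N : ℤ) ∣ B (false, xor v v') t.1 t.2 t'.1 t'.2 *
        B (true, xor v v') t.1 t.2 t'.1 t'.2 := by
      apply total N hm0 (not_four N _ _ hc hd)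
      · intro h2
        have o1 := odd_of_even N _ _ hc hd h2
        have o2 := odd_of_even N _ _ hc' hd' h2
        exact Dvd.dvd.mul_right (even_B _ _ _ _ o1.1 o1.2 o2.1 o2.2 _) _
      · intro p hp
        have hq' := congrFun hq ⟨p, hp⟩
        simp only [Φ] at hq'
        have h2 := bool_swap _ _ _ _ hq'
        obtain ⟨hp2, hpm⟩ := Finset.mem_erase.1 hp
        obtain ⟨hpp, hpd, -⟩ := Nat.mem_primeFactors.1 hpm
        have hcop : IsCoprime ((p : ℤ) ^ (N.factorization p)) (t0.1 : ℤ) :=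
          IsCoprime.pow_left ((Nat.prime_iff_prime_int.1 hpp).coprime_iff_not_dvd.2
            (not_dvd_left p N _ _ hpp hpd hc0 (he0 ▸ dvd_refl _)).1)
        have h3 := label_comp _ _ _ _ _ _ _ hcop _ _ (hℓ ⟨t, ht⟩ ⟨p, hp⟩) (hℓ ⟨t', ht'⟩ ⟨p, hp⟩)
        rw [h2] at h3
        cases hb : xor (ℓ ⟨t, ht⟩ ⟨p, hp⟩).1 (ℓ ⟨t', ht'⟩ ⟨p, hp⟩).1
        · rw [hb] at h3
          exact Dvd.dvd.mul_right h3 _
        · rw [hb] at h3
          exact Dvd.dvd.mul_left h3 _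
    have heZ : (t.1 : ℤ) ^ 4 + (t.2 : ℤ) ^ 4 = (N : ℤ) := by exact_mod_cast he
    have heZ' : (t'.1 : ℤ) ^ 4 + (t'.2 : ℤ) ^ 4 = (N : ℤ) := by exact_mod_cast he'
    have hyZ : (0 : ℤ) < t.2 := by exact_mod_cast hy
    have hxyZ : (t.2 : ℤ) < t.1 := by exact_mod_cast hxy
    have hyZ' : (0 : ℤ) < t'.2 := by exact_mod_cast hy'
    have hxyZ' : (t'.2 : ℤ) < t'.1 := by exact_mod_cast hxy'
    have hsm := prod_small (N : ℤ) (xor v v') _ _ _ _ hyZ hxyZ hyZ' hxyZ' heZ heZ'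
    have hzero := Int.eq_zero_of_abs_lt_dvd hdvd hsm
    have hbt := (B_pos (true, xor v v') (by simp) _ _ _ _ hyZ hxyZ hyZ' hxyZ').ne'
    have hbf : B (false, xor v v') t.1 t.2 t'.1 t'.2 = 0 := by
      rcases mul_eq_zero.1 hzero with h | h
      · exact h
      · exact absurd h hbt
    have hv : xor v v' = false := by
      by_contra hne
      exact (B_pos (false, xor v v') (by simpa using hne) _ _ _ _ hyZ hxyZ hyZ' hxyZ').ne' hbf
    rw [hv] at hbf
    have hbf' : (t.1 : ℤ) * t'.2 - t'.1 * t.2 = 0 := by simpa [B, sg] using hbf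
    obtain ⟨e1, e2⟩ := eq_of_cross _ _ _ _ hc hc' (by omega) hbf'
    have ev : v = v' := by simpa using hv
    have et : t = t' := Prod.ext e1 e2
    subst et
    subst ev
    rfl
  have hcard := Fintype.card_le_of_injective Φ hΦ
  simp only [Fintype.card_prod, Fintype.card_coe, Fintype.card_bool, Fintype.card_fun] at hcard
  omega

theorem partB2 (c z : ℕ) (S : Finset (ℕ × ℕ)) (hS : ∀ t ∈ S, Admissible c t.1 t.2 z)
    (h2 : 2 ≤ S.card) : 3 ≤ oddOmega (c * z) := by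
  classical
  obtain ⟨t, ht, t', ht', hne⟩ := Finset.one_lt_card.1 h2
  obtain ⟨hy, hxy, hz, hc, he⟩ := hS t ht
  obtain ⟨hy', hxy', hz', hc', he'⟩ := hS t' ht'
  have hcz : c ≠ 0 := by
    rintro rfl
    rw [zero_mul] at he
    have := pow_pos hy 4
    omega
  rw [oddOmega, ← primeFactors_mod c z hcz hz.ne']
  set N : ℕ := c * z ^ 4 with hNdef
  have hm0 : N ≠ 0 := mul_ne_zero hcz (pow_ne_zero 4 hz.ne')
  have hd : N ∣ t.1 ^ 4 + t.2 ^ 4 := he ▸ dvd_refl _
  have hd' : N ∣ t'.1 ^ 4 + t'.2 ^ 4 := he' ▸ dvd_refl _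
  have heZ : (t.1 : ℤ) ^ 4 + (t.2 : ℤ) ^ 4 = (N : ℤ) := by exact_mod_cast he
  have heZ' : (t'.1 : ℤ) ^ 4 + (t'.2 : ℤ) ^ 4 = (N : ℤ) := by exact_mod_cast he'
  have hyZ : (0 : ℤ) < t.2 := by exact_mod_cast hy
  have hxyZ : (t.2 : ℤ) < t.1 := by exact_mod_cast hxy
  have hyZ' : (0 : ℤ) < t'.2 := by exact_mod_cast hy'
  have hxyZ' : (t'.2 : ℤ) < t'.1 := by exact_mod_cast hxy'
  have hB0 : B (false, false) t.1 t.2 t'.1 t'.2 ≠ 0 := by
    intro h0
    have h0' : (t.1 : ℤ) * t'.2 - t'.1 * t.2 = 0 := by simpa [B, sg] using h0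
    obtain ⟨e1, e2⟩ := eq_of_cross _ _ _ _ hc hc' (by omega) h0'
    exact hne (Prod.ext e1 e2)
  by_contra hlt
  have hlt := Nat.lt_succ_iff.1 (not_le.1 hlt)
  have hlab : ∀ p : (N.primeFactors.erase 2 : Finset ℕ), ∃ s : Bool × Bool,
      ((p : ℕ) : ℤ) ^ (N.factorization p) ∣ B s t.1 t.2 t'.1 t'.2 := by
    rintro ⟨p, hp⟩
    exact label N hm0 p hp _ _ _ _ hc hc' hd hd'
  choose ℓ hℓ using hlab
  have himg : (Finset.univ.image ℓ).card ≤ 2 := by
    refine Finset.card_image_le.trans ?_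
    simpa using hlt
  obtain ⟨U, hU, hUc⟩ := Finset.exists_superset_card_eq himg (by simp)
  obtain ⟨s1, s2, hs12, rfl⟩ := Finset.card_eq_two.1 hUc
  apply pair_excluded (N : ℤ) _ _ _ _ hyZ hxyZ hyZ' hxyZ' heZ heZ' hB0 s1 s2 hs12
  apply total N hm0 (not_four N _ _ hc hd)
  · intro h2
    have o1 := odd_of_even N _ _ hc hd h2
    have o2 := odd_of_even N _ _ hc' hd' h2
    exact Dvd.dvd.mul_right (even_B _ _ _ _ o1.1 o1.2 o2.1 o2.2 _) _
  · intro p hp
    have h3 := hℓ ⟨p, hp⟩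
    have h4 : ℓ ⟨p, hp⟩ ∈ ({s1, s2} : Finset (Bool × Bool)) :=
      hU (Finset.mem_image_of_mem ℓ (Finset.mem_univ _))
    rcases Finset.mem_insert.1 h4 with h5 | h5
    · rw [h5] at h3
      exact Dvd.dvd.mul_right h3 _
    · rw [Finset.mem_singleton.1 h5] at h3
      exact Dvd.dvd.mul_left h3 _

end Pool.Agent.QuarticPF
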