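import Mathlib

/-! Definitions for MP_bc75e5_nt: admissible solutions and the number of odd prime factors. -/

set_option autoImplicit false

namespace Pool.Agent.QuarticPF

/-- `(x, y, z)` is an admissible solution of `x^4 + y^4 = c z^4`: positive integers with
`gcd (x, y) = 1` and `x > y`. -/
def Admissible (c x y z : ℕ) : Prop :=
  0 < y ∧ y < x ∧ 0 < z ∧ Nat.Coprime x y ∧ x ^ 4 + y ^ 4 = c * z ^ 4

/-- The number of different odd prime factors of `n`. -/
def oddOmega (n : ℕ) : ℕ := (n.primeFactors.erase 2).card

end Pool.Agent.QuarticPF
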